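import Mathlib

set_option autoImplicit false

namespace Pool.Agent.Results.MP_4c2ece_co.Broom

open Finset

/-- `H` is a minor of `G`. -/
def IsMinor {m n : ℕ} (H : SimpleGraph (Fin m)) (G : SimpleGraph (Fin n)) : Prop :=
  ∃ B : Fin m → Set (Fin n), (∀ w, (G.induce (B w)).Connected) ∧
    (∀ w w', w ≠ w' → Disjoint (B w) (B w')) ∧
    ∀ w w', H.Adj w w' → ∃ x ∈ B w, ∃ y ∈ B w', G.Adj x y

/-- The class is closed under taking minors. -/
def MinorClosed (𝓗 : (n : ℕ) → SimpleGraph (Fin n) → Prop) : Prop :=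
  ∀ (m n : ℕ) (H : SimpleGraph (Fin m)) (G : SimpleGraph (Fin n)), IsMinor H G → 𝓗 n G → 𝓗 m H

/-- `G` admits a `k`-identification to the class. -/
def IdLe (𝓗 : (n : ℕ) → SimpleGraph (Fin n) → Prop) {n : ℕ} (G : SimpleGraph (Fin n)) (k : ℕ) :
    Prop :=
  ∃ X : Finset (Fin n), X.card ≤ k ∧ ∃ (m : ℕ) (π : Fin n → Fin m), Function.Surjective π ∧
    (∀ x y, π x = π y → x = y ∨ (x ∈ X ∧ y ∈ X)) ∧ 𝓗 m (G.map π)

/-- Exactly `k` successive edge contractions can turn `G` into a graph of the class. -/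
def Contr (𝓗 : (n : ℕ) → SimpleGraph (Fin n) → Prop) :
    ℕ → (n : ℕ) → SimpleGraph (Fin n) → Prop
  | 0, n, G => 𝓗 n G
  | k + 1, n, G => ∃ u v : Fin n, G.Adj u v ∧ ∃ (m : ℕ) (π : Fin n → Fin m),
      Function.Surjective π ∧ (∀ x y, π x = π y ↔ x = y ∨ (x = u ∧ y = v) ∨ (x = v ∧ y = u)) ∧
      Contr 𝓗 k m (G.map π)

def Apex (n : ℕ) (G : SimpleGraph (Fin n)) : Prop :=
  ∃ A : Set (Fin n), A.Subsingleton ∧ ∀ v, v ∉ A → (G.neighborSet v \ A).ncard ≤ 2

theorem three_out {n : ℕ} (G : SimpleGraph (Fin n)) (A B : Set (Fin n)) (Y : Finset (Fin n))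
    (hB : (G.induce B).Connected) (hBA : ∀ x ∈ B, x ∉ A)
    (hd : ∀ v, v ∉ A → (G.neighborSet v \ A).ncard ≤ 2) (hY : ∀ y ∈ Y, y ∉ A ∧ y ∉ B ∧
      ∃ x ∈ B, G.Adj x y) : Y.card ≤ 2 := by
  classical
  have e1 : ∀ x : B, (G.induce B).degree x + (Y.filter (G.Adj x)).card ≤ 2 := by
    intro x
    refine le_trans ?_ (hd x (hBA x x.2))
    rw [← SimpleGraph.card_neighborFinset_eq_degree,
      ← card_map (Function.Embedding.subtype (· ∈ B)), ← card_union_of_disjoint,
      ← Set.ncard_coe_finset]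
    · refine Set.ncard_le_ncard ?_ (Set.toFinite _)
      intro z hz
      simp only [coe_union, coe_map, Set.mem_union, Set.mem_image, mem_coe,
        SimpleGraph.mem_neighborFinset, mem_filter] at hz
      rcases hz with ⟨w, hw, rfl⟩ | ⟨h1, h2⟩
      · exact ⟨hw, hBA _ w.2⟩
      · exact ⟨h2, (hY z h1).1⟩
    · rw [disjoint_left]
      intro z hz hz'
      obtain ⟨w, -, rfl⟩ := mem_map.mp hz
      exact (hY _ (mem_filter.mp hz').1).2.1 w.2
  have e2 : Y.card ≤ ∑ x : B, (Y.filter (G.Adj x)).card := by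
    simp only [card_filter]
    rw [sum_comm, card_eq_sum_ones]
    refine sum_le_sum fun y hy => ?_
    obtain ⟨-, -, x, hx, h⟩ := hY y hy
    refine le_trans ?_ (single_le_sum (f := fun x : B => if G.Adj x y then 1 else 0)
      (fun _ _ => Nat.zero_le _) (mem_univ ⟨x, hx⟩))
    simp [h]
  have e3 := (G.induce B).sum_degrees_eq_twice_card_edges
  have e4 := hB.card_vert_le_card_edgeSet_add_one
  rw [Nat.card_eq_fintype_card, Nat.card_eq_fintype_card, ← SimpleGraph.edgeFinset_card] at e4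
  have e5 := sum_le_sum (s := univ) fun x _ => e1 x
  rw [sum_add_distrib, e3, sum_const, card_univ, smul_eq_mul] at e5
  omega

theorem apex_closed : MinorClosed Apex := by
  classical
  rintro m n H G ⟨B, b1, b2, b3⟩ ⟨A, a1, a2⟩
  refine ⟨{w | ∃ x ∈ B w, x ∈ A}, ?_, ?_⟩
  · rintro w ⟨x, hx, hx'⟩ w' ⟨y, hy, hy'⟩
    by_contra hc
    exact Set.disjoint_left.mp (b2 w w' hc) hx (a1 hy' hx' ▸ hy)
  · intro w hw
    have hex : ∀ w' ∈ H.neighborSet w \ {w | ∃ x ∈ B w, x ∈ A}, ∃ y ∈ B w', y ∉ A ∧ y ∉ B w ∧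
        ∃ x ∈ B w, G.Adj x y := by
      rintro w' ⟨h1, h2⟩
      obtain ⟨x, hx, y, hy, h⟩ := b3 w w' h1
      exact ⟨y, hy, fun h => h2 ⟨y, hy, h⟩,
        fun h => Set.disjoint_left.mp (b2 w w' h1.ne) h hy, x, hx, h⟩
    by_cases hn : Nonempty (Fin n)
    · choose! g g1 g2 using hex
      have hinj : Set.InjOn g (H.neighborSet w \ {w | ∃ x ∈ B w, x ∈ A}) := by
        intro a ha b hb hab
        by_contra hc
        exact Set.disjoint_left.mp (b2 a b hc) (g1 a ha) (hab ▸ g1 b hb)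
      rw [← hinj.ncard_image, Set.ncard_eq_toFinset_card' ]
      refine three_out G A (B w) _ (b1 w) (fun x hx h => hw ⟨x, hx, h⟩) a2 ?_
      intro y hy
      rw [Set.mem_toFinset] at hy
      obtain ⟨a, ha, rfl⟩ := hy
      exact g2 a ha
    · obtain ⟨⟨x, -⟩⟩ := (b1 w).nonempty
      exact absurd ⟨x⟩ hn

theorem exists_merge {n : ℕ} (u v : Fin n) (huv : u ≠ v) : ∃ (m : ℕ) (π : Fin n → Fin m),
    m < n ∧ Function.Surjective π ∧
      ∀ x y, π x = π y ↔ x = y ∨ (x = u ∧ y = v) ∨ (x = v ∧ y = u) := by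
  obtain ⟨m, rfl⟩ : ∃ m, n = m + 1 := ⟨n - 1, by have := u.pos; omega⟩
  let ρ : Fin (m + 1) → {x // x ≠ v} := fun x => if h : x ≠ v then ⟨x, h⟩ else ⟨u, huv⟩
  refine ⟨m, fun x => (finSuccAboveEquiv v).symm (ρ x), by omega, ?_, ?_⟩
  · refine (finSuccAboveEquiv v).symm.surjective.comp ?_
    rintro ⟨x, hx⟩
    exact ⟨x, dif_pos hx⟩
  · intro x y
    rw [Equiv.apply_eq_iff_eq]
    have hρ : ∀ z, (ρ z).1 = if z = v then u else z := by
      intro z
      by_cases hz : z = v <;> simp [ρ, hz]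
    rw [Subtype.ext_iff, hρ, hρ]
    grind

theorem contr_finite (n : ℕ) : ∀ G : SimpleGraph (Fin n), ∃ k, Contr Apex k n G := by
  induction n using Nat.strong_induction_on with
  | _ n ih =>
    intro G
    by_cases h : ∃ u v, G.Adj u v
    · obtain ⟨u, v, huv⟩ := h
      obtain ⟨m, π, h1, h2, h3⟩ := exists_merge u v huv.ne
      obtain ⟨k, hk⟩ := ih m h1 (G.map π)
      exact ⟨k + 1, u, v, huv, m, π, h2, h3, hk⟩
    · refine ⟨0, ∅, Set.subsingleton_empty, fun v _ => ?_⟩
      have : G.neighborSet v \ ∅ = ∅ := by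
        ext w
        simp only [Set.sdiff_empty, SimpleGraph.mem_neighborSet, Set.mem_empty_iff_false, iff_false]
        exact fun h' => h ⟨v, w, h'⟩
      simp [this]

theorem contr_lb (k : ℕ) : ∀ (n : ℕ) (G : SimpleGraph (Fin n)) (u v : Fin n) (h : Fin n → ℕ),
    (∀ x y, G.Adj x y → h y ≤ h x + 1) → h u + k + 1 ≤ h v → k + 4 ≤ (G.neighborSet u).ncard →
    k + 4 ≤ (G.neighborSet v).ncard → ¬ Contr Apex k n G := by
  induction k with
  | zero =>
    rintro n G u v h h1 h2 h3 h4 ⟨A, a1, a2⟩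
    have key : ∀ w, 4 ≤ (G.neighborSet w).ncard → w ∈ A := by
      intro w hw
      by_contra hc
      have e1 := a2 w hc
      have e2 := Set.ncard_le_ncard_sdiff_add_ncard (G.neighborSet w) A
      have e3 : A.ncard ≤ 1 := (Set.ncard_le_one (Set.toFinite _)).mpr
        (fun a ha b hb => a1 ha hb)
      omega
    have := a1 (key u h3) (key v h4)
    subst this
    omega
  | succ k ih =>
    rintro n G u v h h1 h2 h3 h4 ⟨a, b, hab, m, π, p1, p2, hc⟩
    let c := min (h a) (h b)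
    let h' : Fin n → ℕ := fun z => if h z ≤ c then h z else h z - 1
    have hh : ∀ x y, π x = π y → h' x = h' y := by
      intro x y hxy
      have e1 := h1 a b hab
      have e2 := h1 b a hab.symm
      rcases (p2 x y).mp hxy with rfl | ⟨rfl, rfl⟩ | ⟨rfl, rfl⟩
      · rfl
      · simp only [h', c]; split_ifs <;> omega
      · simp only [h', c]; split_ifs <;> omega
    obtain ⟨σ, hσ⟩ := p1.hasRightInverse
    have hdeg : ∀ w, (G.neighborSet w).ncard ≤ ((G.map π).neighborSet (π w)).ncard + 1 := by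
      intro w
      let d := if w = b then a else b
      have e1 := Set.ncard_le_ncard_sdiff_add_ncard (G.neighborSet w) {d}
      rw [Set.ncard_singleton] at e1
      have e2 : (G.neighborSet w \ {d}).ncard ≤ ((G.map π).neighborSet (π w)).ncard := by
        refine Set.ncard_le_ncard_of_injOn π ?_ ?_ (Set.toFinite _)
        · rintro x ⟨hx, hd⟩
          refine SimpleGraph.map_adj_apply' hx fun h => ?_
          rcases (p2 w x).mp h with rfl | ⟨rfl, rfl⟩ | ⟨rfl, rfl⟩
          · exact G.loopless.irrefl _ hx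
          · exact hd (by simp [d, hab.ne])
          · exact hd (by simp [d])
        · rintro x ⟨hx, hd⟩ y ⟨hy, hd'⟩ hxy
          rcases (p2 x y).mp hxy with rfl | ⟨rfl, rfl⟩ | ⟨rfl, rfl⟩
          · rfl
          · exact absurd (if_neg (G.ne_of_adj hy)).symm hd'
          · exact absurd (if_neg (G.ne_of_adj hx)).symm hd
      omega
    refine ih m (G.map π) (π u) (π v) (fun z => h' (σ z)) ?_ ?_ ?_ ?_ hc
    · rintro x y ⟨-, x', y', hxy, rfl, rfl⟩
      have := h1 x' y' hxy
      show h' (σ (π y')) ≤ h' (σ (π x')) + 1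
      rw [hh _ _ (hσ (π y')), hh _ _ (hσ (π x'))]
      simp only [h']; split_ifs <;> omega
    · show h' (σ (π u)) + k + 1 ≤ h' (σ (π v))
      rw [hh _ _ (hσ (π u)), hh _ _ (hσ (π v))]
      simp only [h']; split_ifs <;> omega
    · have := hdeg u; omega
    · have := hdeg v; omega

def rel (L x y : ℕ) : Prop :=
  (y = x + 1 ∧ y < L) ∨ (x = 0 ∧ L ≤ y ∧ y < 2 * L) ∨ (x + 1 = L ∧ 2 * L ≤ y)

def broom (L : ℕ) : SimpleGraph (Fin (3 * L)) where
  Adj x y := rel L x y ∨ rel L y x
  symm := ⟨fun _ _ h => h.symm⟩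
  loopless := ⟨fun x h => by unfold rel at h; omega⟩

theorem result : ∃ 𝓗 : (n : ℕ) → SimpleGraph (Fin n) → Prop, MinorClosed 𝓗 ∧
    ∀ N : ℕ, ∃ (n : ℕ) (G : SimpleGraph (Fin n)), G.Connected ∧ IdLe 𝓗 G 2 ∧
      (∃ k, Contr 𝓗 k n G) ∧ ∀ k, Contr 𝓗 k n G → N ≤ k := by
  refine ⟨Apex, apex_closed, fun N => ?_⟩
  let L := N + 4
  have hL : L = N + 4 := rfl
  let u : Fin (3 * L) := ⟨0, by omega⟩
  let v : Fin (3 * L) := ⟨L - 1, by omega⟩
  refine ⟨3 * L, broom L, ?_, ?_, contr_finite _ _, ?_⟩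
  · have : Nonempty (Fin (3 * L)) := ⟨u⟩
    have key : ∀ i (hi : i < 3 * L), (broom L).Reachable u ⟨i, hi⟩ := by
      intro i
      induction i using Nat.strong_induction_on with
      | _ i ih =>
        intro hi
        by_cases h0 : i = 0
        · subst h0; rfl
        by_cases h1 : i < L
        · refine (ih (i - 1) (by omega) (by omega)).trans (SimpleGraph.Adj.reachable ?_)
          exact Or.inl (Or.inl ⟨by show i = i - 1 + 1; omega, h1⟩)
        by_cases h2 : i < 2 * L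
        · exact SimpleGraph.Adj.reachable (Or.inl (Or.inr (Or.inl ⟨rfl, not_lt.mp h1, h2⟩)))
        · refine (ih (L - 1) (by omega) (by omega)).trans (SimpleGraph.Adj.reachable ?_)
          exact Or.inl (Or.inr (Or.inr ⟨by show L - 1 + 1 = L; omega, not_lt.mp h2⟩))
    exact ⟨fun x y => (key x.1 x.2).symm.trans (key y.1 y.2)⟩
  · obtain ⟨m, π, -, p1, p2⟩ := exists_merge u v (by simp [u, v, hL])
    refine ⟨{u, v}, card_le_two, m, π, p1, ?_, {π u}, Set.subsingleton_singleton, ?_⟩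
    · intro x y hxy
      rcases (p2 x y).mp hxy with h | ⟨rfl, rfl⟩ | ⟨rfl, rfl⟩ <;> simp [*]
    · intro w hw
      obtain ⟨x, rfl⟩ := p1 w
      have hxu : x ≠ u := fun h => hw (by rw [h]; rfl)
      have hxv : x ≠ v := fun h => hw ((p2 x u).mpr (Or.inr (Or.inr ⟨h, rfl⟩)))
      have hx0 : x.val ≠ 0 := fun h => hxu (Fin.ext h)
      have hxL : x.val ≠ L - 1 := fun h => hxv (Fin.ext h)
      let f : ℕ → Fin m := fun i => if h : i < 3 * L then π ⟨i, h⟩ else π u
      refine le_trans (Set.ncard_le_ncard (t := {f (x.val - 1), f (x.val + 1)}) ?_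
        (Set.toFinite _)) ((Set.ncard_insert_le _ _).trans (by simp))
      rintro z ⟨⟨-, x', y', hxy, h1, rfl⟩, hz⟩
      have hx' : x' = x := by
        rcases (p2 x' x).mp h1 with h | h | h
        · exact h
        · exact absurd h.2 hxv
        · exact absurd h.2 hxu
      subst hx'
      have hyu : y'.val ≠ 0 := fun h => hz (by rw [show y' = u from Fin.ext h]; rfl)
      have hyv : y'.val ≠ L - 1 := fun h => hz ((p2 y' u).mpr (Or.inr (Or.inr ⟨Fin.ext h, rfl⟩)))
      have hy := y'.isLt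
      have : y'.val = x'.val - 1 ∨ y'.val = x'.val + 1 := by
        have h3 : rel L x' y' ∨ rel L y' x' := hxy
        unfold rel at h3
        omega
      rcases this with h | h
      · left
        simp only [f, ← h, hy, dif_pos]
      · right
        simp only [f, ← h, hy, dif_pos, Set.mem_singleton_iff]
  · intro k hk
    by_contra hlt
    refine contr_lb k _ (broom L) u v
      (fun x => if x.val < L then x.val else if x.val < 2 * L then 0 else L - 1) ?_ ?_ ?_ ?_ hk
    · intro x y hxy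
      have h3 : rel L x y ∨ rel L y x := hxy
      unfold rel at h3
      split_ifs <;> omega
    · simp only [u, v]
      split_ifs <;> omega
    · refine le_trans (show k + 4 ≤ (Set.univ : Set (Fin L)).ncard by simp; omega) ?_
      refine Set.ncard_le_ncard_of_injOn (fun i => ⟨L + i.val, by omega⟩) ?_ ?_ (Set.toFinite _)
      · intro i _
        exact Or.inl (Or.inr (Or.inl ⟨rfl, by simp, by show L + i.val < 2 * L; omega⟩))
      · intro i _ j _ h
        simp only [Fin.mk.injEq] at h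
        exact Fin.ext (by omega)
    · refine le_trans (show k + 4 ≤ (Set.univ : Set (Fin L)).ncard by simp; omega) ?_
      refine Set.ncard_le_ncard_of_injOn (fun i => ⟨2 * L + i.val, by omega⟩) ?_ ?_
        (Set.toFinite _)
      · intro i _
        exact Or.inl (Or.inr (Or.inr ⟨by show L - 1 + 1 = L; omega, by simp⟩))
      · intro i _ j _ h
        simp only [Fin.mk.injEq] at h
        exact Fin.ext (by omega)

end Pool.Agent.Results.MP_4c2ece_co.Broom
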